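import Mathlib

set_option autoImplicit false

/-!
Partial colourings of a finite set of rows, sign-free form of acyclicity one step below the top.

`P` is the ambient set of rows, `C` the set of columns, `R : Finset P` the current rows.
A function of the colourings of `R` is a function of all maps `s : P → C` which depends only on the
values of `s` on `R`.  `D c A` says that column `c` may be used by the rows of `A` together.
-/

namespace Pool.Agent.KAL
open Finset Function

section
variable {P C : Type*} [DecidableEq P] [DecidableEq C]

/-- `f` depends only on the restriction of the colouring to `R`. -/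
def Dep (R : Finset P) (f : (P → C) → ℝ) : Prop :=
  ∀ s s' : P → C, (∀ x ∈ R, s x = s' x) → f s = f s'

/-- `f` is supported on the colourings of `R` all of whose classes are faces. -/
def Supp (D : C → Finset P → Prop) (R : Finset P) (f : (P → C) → ℝ) : Prop :=
  ∀ s : P → C, f s ≠ 0 → ∀ c, D c (R.filter (fun y => s y = c))

/-- Sign-free form of `the complex of partial colourings of R is acyclic in degree |R| - 2`. -/
def Good [Fintype C] (D : C → Finset P → Prop) (R : Finset P) : Prop :=
  ∀ g : P → (P → C) → ℝ,
    (∀ x ∈ R, Dep (R.erase x) (g x)) →
    (∀ x ∈ R, Supp D (R.erase x) (g x)) →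
    (∀ x ∈ R, ∀ y ∈ R, x ≠ y → ∀ s : P → C,
      ∑ c, g x (update s y c) = ∑ c, g y (update s x c)) →
    ∃ w : (P → C) → ℝ, Dep R w ∧ Supp D R w ∧
      ∀ x ∈ R, ∀ s : P → C, ∑ c, w (update s x c) = g x s

end

end Pool.Agent.KAL
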