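import Pool.Agent.Lib_helper17.KAL.Lam

set_option autoImplicit false

namespace Pool.Agent.KAL
open Finset Function

theorem exists_avoid {M : Type*} [AddCommGroup M] [Module ℝ M] {I : Type*} [Finite I]
    (W : I → Submodule ℝ M) (hW : ∀ i, W i ≠ ⊤) : ∃ q : M, ∀ i, q ∉ W i := by
  classical
  have hfin : (Set.range W).Finite := Set.finite_range W
  have h := Subspace.biUnion_ne_univ_of_top_notMem (s := hfin.toFinset) (k := ℝ) (E := M)
    (by simp only [Set.Finite.mem_toFinset]; rintro ⟨i, hi⟩; exact hW i hi)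
  rw [Set.ne_univ_iff_exists_notMem] at h
  obtain ⟨q, hq⟩ := h
  refine ⟨q, fun i hi => hq ?_⟩
  simp only [Set.mem_iUnion]
  exact ⟨W i, by simp, hi⟩

/-- Perturbation: near `p` there is a point off finitely many proper subspaces. -/
theorem exists_avoid_near {M : Type*} [AddCommGroup M] [Module ℝ M] {I : Type*} [Finite I]
    (W : I → Submodule ℝ M) (hW : ∀ i, W i ≠ ⊤) (p : M) :
    ∃ q : M, ∀ ε : ℝ, 0 < ε → ∃ t : ℝ, 0 < t ∧ t < ε ∧ ∀ i, p + t • q ∉ W i := by
  classical
  obtain ⟨q, hq⟩ := exists_avoid W hW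
  refine ⟨q, fun ε hε => ?_⟩
  have hfin : (⋃ i, {t : ℝ | p + t • q ∈ W i}).Finite := by
    apply Set.finite_iUnion
    intro i
    apply Set.Subsingleton.finite
    intro t ht t' ht'
    by_contra hne
    apply hq i
    have h1 : (t - t') • q ∈ W i := by
      have h2 : (t - t') • q = (p + t • q) - (p + t' • q) := by
        rw [sub_smul]; abel
      rw [h2]
      exact (W i).sub_mem ht ht'
    have h3 : t - t' ≠ 0 := sub_ne_zero.2 hne
    have h4 : q = (t - t')⁻¹ • ((t - t') • q) := by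
      rw [smul_smul, inv_mul_cancel₀ h3, one_smul]
    rw [h4]
    exact (W i).smul_mem _ h1
  obtain ⟨t, ht⟩ := ((Set.Ioo_infinite hε).sdiff hfin).nonempty
  refine ⟨t, ht.1.1, ht.1.2, fun i hi => ht.2 ?_⟩
  exact Set.mem_iUnion.2 ⟨i, hi⟩

section
variable {P C M : Type*} [DecidableEq P] [AddCommGroup M] [Module ℝ M]
  (R : Finset P) (iota : C → P → M) (e : (M × ℝ) ≃ₗ[ℝ] (R → ℝ))

theorem lam_row (s : P → C) (x y : R) (hxy : y ≠ x) :
    ∃ ψ : M →ₗ[ℝ] ℝ, (∀ c, lam R iota e (update s (y : P) c) x = ψ (iota c y)) ∧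
      (∀ z : R, z ≠ x → z ≠ y → ψ (iota (s z) z) = 0) := by
  classical
  set B : Matrix R R ℝ := (mat R iota e s).updateRow x (e (0, 1)) with hB
  refine ⟨(((Matrix.detRowAlternating (n := R) (R := ℝ)).toMultilinearMap.toLinearMap B y).comp
    e.toLinearMap).comp (LinearMap.inl ℝ M ℝ), ?_, ?_⟩
  · intro c
    show Matrix.det _ = Matrix.det (B.updateRow y (e (iota c y, 0)))
    congr 1
    ext z i
    by_cases hzx : z = x
    · subst hzx
      rw [Matrix.updateRow_self, Matrix.updateRow_ne (Ne.symm hxy), hB, Matrix.updateRow_self]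
    · rw [Matrix.updateRow_ne hzx]
      by_cases hzy : z = y
      · subst hzy
        rw [Matrix.updateRow_self]
        simp [mat]
      · have hzy' : (z : P) ≠ y := fun h => hzy (Subtype.ext h)
        rw [Matrix.updateRow_ne hzy, hB, Matrix.updateRow_ne hzx]
        simp [mat, hzy']
  · intro z hzx hzy
    show Matrix.det (B.updateRow y (e (iota (s z) z, 0))) = 0
    apply Matrix.det_zero_of_row_eq hzy
    rw [Matrix.updateRow_self, Matrix.updateRow_ne hzy, hB, Matrix.updateRow_ne hzx]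
    rfl

end

end Pool.Agent.KAL
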