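import Pool.Agent.Lib_helper17.KAL.Defs

set_option autoImplicit false

namespace Pool.Agent.KAL
open Finset Function

theorem cramer_rows {n : Type*} [Fintype n] [DecidableEq n] (B : Matrix n n ℝ) (q : n → ℝ) :
    ∑ x, (B.updateRow x q).det • B x = B.det • q := by
  have h := Matrix.mulVec_cramer B.transpose q
  rw [Matrix.det_transpose] at h
  rw [← h]
  ext i
  simp [Matrix.mulVec, dotProduct, Matrix.cramer_transpose_apply, mul_comm]

section
variable {P C M : Type*} [DecidableEq P] [AddCommGroup M] [Module ℝ M]
  (R : Finset P) (iota : C → P → M) (e : (M × ℝ) ≃ₗ[ℝ] (R → ℝ))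

/-- The matrix with rows `(iota (s x) x, 0)`. -/
noncomputable def mat (s : P → C) : Matrix R R ℝ := fun x => e (iota (s x) x, 0)

/-- The cofactors: `lam s x` depends only on the colouring off `x`. -/
noncomputable def lam (s : P → C) (x : R) : ℝ := ((mat R iota e s).updateRow x (e (0, 1))).det

theorem lam_congr {s s' : P → C} (x : R) (h : ∀ y ∈ R, y ≠ (x : P) → s y = s' y) :
    lam R iota e s x = lam R iota e s' x := by
  unfold lam
  congr 1
  ext y i
  by_cases hy : y = x
  · subst hy; simp
  · have hy' : (y : P) ≠ x := fun h' => hy (Subtype.ext h')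
    rw [Matrix.updateRow_ne hy, Matrix.updateRow_ne hy]
    unfold mat
    rw [h y y.2 hy']

theorem lam_rel (s : P → C) : ∑ x : R, lam R iota e s x • iota (s x) x = 0 := by
  have h := cramer_rows (mat R iota e s) (e (0, 1))
  have h2 : e (∑ x : R, lam R iota e s x • iota (s x) x, 0) =
      e (0, (mat R iota e s).det) := by
    have e1 : (∑ x : R, lam R iota e s x • iota (s x) x, (0 : ℝ)) =
        ∑ x : R, lam R iota e s x • ((iota (s x) x, 0) : M × ℝ) := by
      ext
      · simp [Prod.fst_sum]
      · simp [Prod.snd_sum]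
    have e2 : ((0 : M), (mat R iota e s).det) = (mat R iota e s).det • ((0, 1) : M × ℝ) := by
      ext <;> simp
    rw [e1, e2, map_smul, ← h, map_sum]
    apply Finset.sum_congr rfl
    intro x _
    rw [map_smul]
    rfl
  have h3 := e.injective h2
  exact congrArg Prod.fst h3

theorem lam_li (s : P → C) (x : R) (hx : lam R iota e s x ≠ 0) (d : R → ℝ) (hd : d x = 0)
    (hrel : ∑ y : R, d y • iota (s y) y = 0) : d = 0 := by
  apply Matrix.eq_zero_of_vecMul_eq_zero hx
  have h1 : Matrix.vecMul d ((mat R iota e s).updateRow x (e (0, 1))) =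
      e (∑ y : R, d y • iota (s y) y, 0) := by
    have e1 : (∑ y : R, d y • iota (s y) y, (0 : ℝ)) =
        ∑ y : R, d y • ((iota (s y) y, 0) : M × ℝ) := by
      ext
      · simp [Prod.fst_sum]
      · simp [Prod.snd_sum]
    rw [e1, map_sum]
    ext i
    simp only [Matrix.vecMul, dotProduct, Finset.sum_apply]
    apply Finset.sum_congr rfl
    intro y _
    by_cases hy : y = x
    · subst hy; simp [hd]
    · rw [Matrix.updateRow_ne hy, map_smul]
      simp [mat]
  rw [h1, hrel]
  simp

theorem lam_span (s : P → C) (x : R) (hx : lam R iota e s x ≠ 0) (p : M) :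
    ∃ β : R → ℝ, β x = 0 ∧ ∑ y : R, β y • iota (s y) y = p := by
  set B : Matrix R R ℝ := (mat R iota e s).updateRow x (e (0, 1)) with hB
  have hdet : B.det ≠ 0 := hx
  have h := cramer_rows B (e (p, 0))
  set c : R → ℝ := fun y => (B.updateRow y (e (p, 0))).det with hc
  have h2 : (∑ y : R, c y • e.symm (B y)) = (B.det • p, (0 : ℝ)) := by
    apply e.injective
    rw [map_sum]
    have e3 : e (B.det • p, (0 : ℝ)) = B.det • e (p, 0) := by
      rw [← map_smul]
      congr 1
      ext <;> simp
    rw [e3, ← h]
    apply Finset.sum_congr rfl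
    intro y _
    rw [map_smul, LinearEquiv.apply_symm_apply]
  have hBx : e.symm (B x) = (0, 1) := by
    rw [hB, Matrix.updateRow_self, LinearEquiv.symm_apply_apply]
  have hBy : ∀ y, y ≠ x → e.symm (B y) = (iota (s y) y, 0) := by
    intro y hy
    rw [hB, Matrix.updateRow_ne hy]
    simp [mat]
  have hcx : c x = 0 := by
    have h3 := congrArg Prod.snd h2
    rw [Prod.snd_sum, Finset.sum_eq_single x] at h3
    · rw [hBx] at h3
      simpa using h3
    · intro y _ hy
      rw [hBy y hy]
      simp
    · intro h'; exact absurd (mem_univ _) h'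
  refine ⟨fun y => c y / B.det, by simp [hcx], ?_⟩
  have h3 := congrArg Prod.fst h2
  rw [Prod.fst_sum] at h3
  have h4 : ∑ y : R, c y • iota (s y) y = B.det • p := by
    rw [← show (B.det • p, (0 : ℝ)).1 = B.det • p from rfl, ← h3]
    apply Finset.sum_congr rfl
    intro y _
    by_cases hy : y = x
    · subst hy; rw [hcx, hBx]; simp
    · rw [hBy y hy]; simp
  have h5 : ∑ y : R, (c y / B.det) • iota (s y) y = (B.det)⁻¹ • ∑ y : R, c y • iota (s y) y := by
    rw [Finset.smul_sum]
    apply Finset.sum_congr rfl
    intro y _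
    rw [smul_smul]
    congr 1
    rw [div_eq_inv_mul]
  rw [h5, h4, smul_smul, inv_mul_cancel₀ hdet, one_smul]

theorem lam_ne_of_li (s : P → C) (x : R)
    (hli : ∀ d : R → ℝ, d x = 0 → ∑ y : R, d y • iota (s y) y = 0 → d = 0) :
    lam R iota e s x ≠ 0 := by
  intro h0
  obtain ⟨d, hd, hd0⟩ := Matrix.exists_vecMul_eq_zero_iff.2 h0
  have h1 : Matrix.vecMul d ((mat R iota e s).updateRow x (e (0, 1))) =
      e (∑ y : R, (update d x 0 y) • iota (s y) y, d x) := by
    have e1 : (∑ y : R, (update d x 0 y) • iota (s y) y, d x) =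
        ∑ y : R, d y • (if y = x then ((0, 1) : M × ℝ) else (iota (s y) y, 0)) := by
      ext
      · rw [Prod.fst_sum]
        apply Finset.sum_congr rfl
        intro y _
        by_cases hy : y = x
        · subst hy; simp
        · simp [hy]
      · rw [Prod.snd_sum]
        have h7 : ∀ y : R, (d y • (if y = x then ((0, 1) : M × ℝ) else (iota (s y) y, 0))).2 =
            if y = x then d x else 0 := by
          intro y
          by_cases hy : y = x
          · subst hy; simp
          · simp [hy]
        rw [Finset.sum_congr rfl (fun y _ => h7 y), Finset.sum_ite_eq' univ x (fun _ => d x)]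
        simp
    rw [e1, map_sum]
    ext i
    simp only [Matrix.vecMul, dotProduct, Finset.sum_apply]
    apply Finset.sum_congr rfl
    intro y _
    by_cases hy : y = x
    · rw [hy, Matrix.updateRow_self, if_pos rfl, map_smul]
      rfl
    · rw [Matrix.updateRow_ne hy, map_smul]
      simp [mat, hy]
  rw [hd0] at h1
  have h2 : (∑ y : R, (update d x 0 y) • iota (s y) y, d x) = (0 : M × ℝ) := by
    apply e.injective
    rw [← h1]; simp
  have h3 : d x = 0 := congrArg Prod.snd h2
  have h4 : ∑ y : R, (update d x 0 y) • iota (s y) y = 0 := congrArg Prod.fst h2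
  have h5 : update d x 0 = d := by
    rw [← h3]; simp
  rw [h5] at h4
  exact hd (hli d h3 h4)

end

end Pool.Agent.KAL
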