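import Pool.Agent.Lib_helper17.KAL.StepOneS
import Pool.Agent.Lib_helper10.RY.Rado
import Pool.Agent.Lib_helper19.GC2.Rec

set_option autoImplicit false

/-! # The model

`M = (C → V) / (∏ U c + diagonal)` and the vectors `iota c p = [x p placed at c]`. -/

namespace Pool.Agent.KAL
open Finset Function Module

section
variable {V : Type*} [AddCommGroup V] [Module ℝ V] [FiniteDimensional ℝ V]
  {C P : Type*} [Fintype C] [DecidableEq C] [Fintype P] [DecidableEq P]

/-- the diagonal -/
def dg (C : Type*) (V : Type*) [AddCommGroup V] [Module ℝ V] : V →ₗ[ℝ] (C → V) :=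
  LinearMap.pi fun _ => LinearMap.id

/-- the product of the `U c` plus the diagonal -/
def NN (U : C → Submodule ℝ V) : Submodule ℝ (C → V) :=
  Submodule.pi Set.univ U ⊔ LinearMap.range (dg C V)

omit [Fintype C] [DecidableEq C] [FiniteDimensional ℝ V] in
theorem mem_NN (U : C → Submodule ℝ V) (f : C → V) :
    f ∈ NN U ↔ ∃ u : V, ∀ c, f c - u ∈ U c := by
  unfold NN
  rw [Submodule.mem_sup]
  constructor
  · rintro ⟨w, hw, z, ⟨u, rfl⟩, rfl⟩
    refine ⟨u, fun c => ?_⟩
    have h1 : (w + (dg C V) u) c - u = w c := by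
      simp [dg]
    rw [h1]
    exact (Submodule.mem_pi.1 hw) c (Set.mem_univ c)
  · rintro ⟨u, hu⟩
    refine ⟨fun c => f c - u, Submodule.mem_pi.2 fun c _ => hu c, dg C V u, ⟨u, rfl⟩, ?_⟩
    funext c
    simp [dg]

omit [DecidableEq C] in
theorem finrank_pi_sub (U : C → Submodule ℝ V) :
    finrank ℝ (Submodule.pi Set.univ U : Submodule ℝ (C → V)) = ∑ c, finrank ℝ (U c) := by
  let e : (Submodule.pi Set.univ U : Submodule ℝ (C → V)) ≃ₗ[ℝ] ((c : C) → U c) :=
    { toFun := fun f c => ⟨f.1 c, (Submodule.mem_pi.1 f.2) c (Set.mem_univ c)⟩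
      map_add' := fun f g => rfl
      map_smul' := fun t f => rfl
      invFun := fun g => ⟨fun c => (g c).1, Submodule.mem_pi.2 fun c _ => (g c).2⟩
      left_inv := fun f => rfl
      right_inv := fun g => rfl }
  rw [e.finrank_eq, finrank_pi_fintype]

theorem finrank_M [Nonempty C] (U : C → Submodule ℝ V)
    (hinj : ∀ v : V, (∀ c, v ∈ U c) → v = 0) :
    finrank ℝ ((C → V) ⧸ NN U) + finrank ℝ V = ∑ c, (finrank ℝ V - finrank ℝ (U c)) := by
  have h1 := Submodule.finrank_quotient_add_finrank (NN U)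
  have h2 := Submodule.finrank_sup_add_finrank_inf_eq
    (Submodule.pi Set.univ U : Submodule ℝ (C → V)) (LinearMap.range (dg C V))
  have h3 : (Submodule.pi Set.univ U : Submodule ℝ (C → V)) ⊓ LinearMap.range (dg C V) = ⊥ := by
    rw [eq_bot_iff]
    rintro f ⟨hf, ⟨u, rfl⟩⟩
    have hu : u = 0 := hinj u fun c => (Submodule.mem_pi.1 hf) c (Set.mem_univ c)
    rw [hu, map_zero]
    exact Submodule.zero_mem _
  have h4 : finrank ℝ (LinearMap.range (dg C V)) = finrank ℝ V := by
    apply LinearMap.finrank_range_of_inj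
    intro v w h
    obtain ⟨c⟩ := (inferInstance : Nonempty C)
    exact congrFun h c
  rw [h3, finrank_bot, h4, finrank_pi_sub] at h2
  have h5 : finrank ℝ (C → V) = ∑ _c : C, finrank ℝ V := by
    rw [finrank_pi_fintype]
  have h6 : ∑ c, (finrank ℝ V - finrank ℝ (U c)) + ∑ c, finrank ℝ (U c) = ∑ _c : C, finrank ℝ V := by
    rw [← Finset.sum_add_distrib]
    apply Finset.sum_congr rfl
    intro c _
    have := Submodule.finrank_le (U c)
    omega
  have h7 : finrank ℝ (NN U) = finrank ℝ
    ((Submodule.pi Set.univ U : Submodule ℝ (C → V)) ⊔ LinearMap.range (dg C V) :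
      Submodule ℝ (C → V)) := rfl
  omega

/-- `x p` placed at `c` -/
def io (U : C → Submodule ℝ V) (x : P → V) (c : C) (p : P) : (C → V) ⧸ NN U :=
  (NN U).mkQ (Pi.single c (x p))

omit [FiniteDimensional ℝ V] [Fintype P] [DecidableEq P] in
theorem io_sum_zero (U : C → Submodule ℝ V) (x : P → V) (p : P) : ∑ c, io U x c p = 0 := by
  unfold io
  rw [← map_sum, Finset.univ_sum_single, Submodule.mkQ_apply, Submodule.Quotient.mk_eq_zero,
    mem_NN]
  exact ⟨x p, fun c => by simp⟩

omit [FiniteDimensional ℝ V] [Fintype P] [DecidableEq P] [Fintype C] in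
/-- relations between the vectors `iota (s p) p` -/
theorem io_rel (U : C → Submodule ℝ V) (x : P → V) (s : P → C) (T : Finset P) (a : P → ℝ)
    (h : ∑ p ∈ T, a p • io U x (s p) p = 0) :
    ∃ u : V, ∀ c, ∑ p ∈ T with s p = c, a p • x p - u ∈ U c := by
  have h1 : (NN U).mkQ (∑ p ∈ T, a p • (Pi.single (s p) (x p) : C → V)) = 0 := by
    rw [← h, map_sum]
    apply Finset.sum_congr rfl
    intro p _
    rw [map_smul]
    rfl
  rw [Submodule.mkQ_apply, Submodule.Quotient.mk_eq_zero, mem_NN] at h1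
  obtain ⟨u, hu⟩ := h1
  refine ⟨u, fun c => ?_⟩
  have h2 := hu c
  have h3 : (∑ p ∈ T, a p • (Pi.single (s p) (x p) : C → V)) c
      = ∑ p ∈ T with s p = c, a p • x p := by
    rw [Finset.sum_apply, Finset.sum_filter]
    apply Finset.sum_congr rfl
    intro p _
    by_cases hp : s p = c
    · subst hp
      simp
    · rw [if_neg hp, Pi.smul_apply, Pi.single_eq_of_ne (fun h => hp h.symm), smul_zero]
  rw [h3] at h2
  exact h2

omit [FiniteDimensional ℝ V] [Fintype P] [DecidableEq P] [Fintype C] in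
theorem io_rel_one (U : C → Submodule ℝ V) (x : P → V) (c : C)
    (hinj : ∀ v : V, (∀ i, i ≠ c → v ∈ U i) → v = 0) (T : Finset P) (a : P → ℝ)
    (h : ∑ p ∈ T, a p • io U x c p = 0) : ∑ p ∈ T, a p • x p ∈ U c := by
  obtain ⟨u, hu⟩ := io_rel U x (fun _ => c) T a h
  have hu0 : u = 0 := by
    apply hinj
    intro i hi
    have h1 := hu i
    have h2 : (T.filter fun _ => c = i) = ∅ := by
      apply Finset.filter_false_of_mem
      intro p _ h3
      exact hi h3.symm
    rw [h2, Finset.sum_empty, zero_sub] at h1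
    exact (Submodule.neg_mem_iff _).1 h1
  have h1 := hu c
  rw [hu0, sub_zero] at h1
  simpa using h1

omit [FiniteDimensional ℝ V] [Fintype P] [DecidableEq P] [Fintype C] in
theorem io_of_mem (U : C → Submodule ℝ V) (x : P → V) (c : C) (T : Finset P) (a : P → ℝ)
    (h : ∑ p ∈ T, a p • x p ∈ U c) : ∑ p ∈ T, a p • io U x c p = 0 := by
  have h1 : ∑ p ∈ T, a p • io U x c p = (NN U).mkQ (Pi.single c (∑ p ∈ T, a p • x p)) := by
    have h2 : (Pi.single c (∑ p ∈ T, a p • x p) : C → V)
        = ∑ p ∈ T, a p • (Pi.single c (x p) : C → V) := by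
      funext i
      rw [Finset.sum_apply]
      by_cases hi : i = c
      · subst hi
        simp
      · rw [Pi.single_eq_of_ne hi]
        symm
        apply Finset.sum_eq_zero
        intro p _
        rw [Pi.smul_apply, Pi.single_eq_of_ne hi, smul_zero]
    rw [h2, map_sum]
    apply Finset.sum_congr rfl
    intro p _
    rw [map_smul]
    rfl
  rw [h1, Submodule.mkQ_apply, Submodule.Quotient.mk_eq_zero, mem_NN]
  refine ⟨0, fun i => ?_⟩
  rw [sub_zero]
  by_cases hi : i = c
  · subst hi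
    simpa using h
  · rw [Pi.single_eq_of_ne hi]
    exact Submodule.zero_mem _

end

end Pool.Agent.KAL
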