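import Pool.Agent.Lib_helper17.KAL.LpAux

set_option autoImplicit false

namespace Pool.Agent.KAL
open Finset Function Module

section
variable {V : Type*} [AddCommGroup V] [Module ℝ V] [FiniteDimensional ℝ V]
  {C P : Type*} [Fintype C] [DecidableEq C] [Fintype P] [DecidableEq P]

omit [Fintype P] [DecidableEq P] [FiniteDimensional ℝ V] in
/-- few rows: the vectors of one column are independent modulo `U c` as soon as the sets of at most
`codim` rows are. -/
theorem mk_li (U : Submodule ℝ V) (x : P → V) (T : Finset P)
    (h : ∀ b : P → ℝ, ∑ p ∈ T, b p • x p ∈ U → ∀ p ∈ T, b p = 0) :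
    LinearIndependent ℝ (fun p : T => U.mkQ (x p)) := by
  have h1 : LinearIndepOn ℝ (fun p => U.mkQ (x p)) (T : Set P) := by
    rw [linearIndepOn_finset_iff]
    intro b hb
    apply h b
    rw [← Submodule.Quotient.mk_eq_zero, ← Submodule.mkQ_apply, map_sum]
    simpa using hb
  exact h1

omit [Fintype P] [DecidableEq P] in
/-- `codim` independent rows span modulo `U`. -/
theorem mk_span (U : Submodule ℝ V) (x : P → V) (T : Finset P)
    (hT : T.card = finrank ℝ V - finrank ℝ U)
    (h : ∀ b : P → ℝ, ∑ p ∈ T, b p • x p ∈ U → ∀ p ∈ T, b p = 0) (v : V) :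
    ∃ b : P → ℝ, v - ∑ p ∈ T, b p • x p ∈ U := by
  classical
  have hli := mk_li U x T h
  have hfr : Fintype.card T = finrank ℝ (V ⧸ U) := by
    have := Submodule.finrank_quotient_add_finrank U
    rw [Fintype.card_coe, hT]
    omega
  have hspan : Submodule.span ℝ (Set.range fun p : T => U.mkQ (x p)) = ⊤ := by
    apply Submodule.eq_top_of_finrank_eq
    rw [finrank_span_eq_card hli, hfr]
  have hv : U.mkQ v ∈ Submodule.span ℝ (Set.range fun p : T => U.mkQ (x p)) := by
    rw [hspan]; exact Submodule.mem_top
  obtain ⟨b, hb⟩ := (Submodule.mem_span_range_iff_exists_fun ℝ).1 hv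
  refine ⟨fun p => if h : p ∈ T then b ⟨p, h⟩ else 0, ?_⟩
  rw [← Submodule.Quotient.mk_eq_zero, ← Submodule.mkQ_apply, map_sub, sub_eq_zero, ← hb, map_sum,
    ← Finset.sum_coe_sort T]
  apply Finset.sum_congr rfl
  intro p _
  rw [map_smul]
  simp

omit [Fintype P] [DecidableEq P] [FiniteDimensional ℝ V] [Fintype C] in
/-- independent rows of a column are pointed. -/
theorem pt_of_li (U : C → Submodule ℝ V) (x : P → V) (c : C) (A : Finset P)
    (h : LinearIndependent ℝ (fun y : A => io U x c (y : P))) :
    ∃ l : Dual ℝ (V ⧸ U c), ∀ p ∈ A, 0 < l ((U c).mkQ (x p)) := by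
  classical
  have h1 : ∀ b : P → ℝ, ∑ p ∈ A, b p • x p ∈ U c → ∀ p ∈ A, b p = 0 := by
    intro b hb p hp
    have h2 := io_of_mem U x c A b hb
    have h3 := Fintype.linearIndependent_iff.1 h (fun y => b y) (by
      rw [Finset.sum_coe_sort A (fun p => b p • io U x c p)]; exact h2)
    exact h3 ⟨p, hp⟩
  have hli := mk_li (U c) x A h1
  obtain ⟨g, hg⟩ := LinearMap.exists_extend
    ((Basis.span hli).constr ℝ (fun _ : A => (1 : ℝ)))
  refine ⟨g, fun p hp => ?_⟩
  have h2 : ((Basis.span hli ⟨p, hp⟩ : Submodule.span ℝ (Set.range fun p : A => (U c).mkQ (x p))) :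
      V ⧸ U c) = (U c).mkQ (x p) := by
    rw [Basis.span_apply]
  have h3 := congrArg (fun f => f (Basis.span hli ⟨p, hp⟩)) hg
  simp only [LinearMap.comp_apply, Submodule.subtype_apply, Basis.constr_basis] at h3
  rw [h2] at h3
  rw [h3]
  exact one_pos

/-- The model part, from the columns. -/
theorem lp_core [Nonempty C] (U : C → Submodule ℝ V) (x : P → V) (d : ℕ) (W : ℤ → ℕ)
    (hW : Rule d W) (hd : ∀ c, finrank ℝ V - finrank ℝ (U c) ≤ d)
    (hcard : Fintype.card P + finrank ℝ V = ∑ c, (finrank ℝ V - finrank ℝ (U c)) + 1)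
    (hinj : ∀ c v, (∀ i, i ≠ c → v ∈ U i) → v = 0)
    (hgp : ∀ c (T : Finset P), T.card ≤ finrank ℝ V - finrank ℝ (U c) →
      ∀ b : P → ℝ, ∑ p ∈ T, b p • x p ∈ U c → ∀ p ∈ T, b p = 0)
    (hm : Fintype.card P ≤ W (finrank ℝ V))
    (hcol : ∀ c, Col (finrank ℝ V - finrank ℝ (U c)) (univ : Finset P)
      (fun A => ∃ l : Dual ℝ (V ⧸ U c), ∀ p ∈ A, 0 < l ((U c).mkQ (x p)))) :
    ∃ (s : P → C) (a : P → ℝ) (u : V), (∀ p, 0 ≤ a p) ∧ u ≠ 0 ∧
      ∀ c, ∑ p with s p = c, a p • x p - u ∈ U c := by
  classical
  have hM := finrank_M U (fun v hv => by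
    obtain ⟨c⟩ := (inferInstance : Nonempty C)
    exact hinj c v fun i _ => hv i)
  have hdim : finrank ℝ ((C → V) ⧸ NN U) + 1 = (univ : Finset P).card := by
    rw [Finset.card_univ]
    omega
  obtain ⟨x0⟩ : Nonempty P := by
    rw [← Fintype.card_pos_iff]
    rw [Finset.card_univ] at hdim
    omega
  -- the colouring
  obtain ⟨t, ht⟩ := RY.rado (ι := ((univ : Finset P).erase x0 : Finset P)) (C := C)
    (u := fun y c => io U x c (y : P)) (by
      intro T
      set Y : Submodule ℝ ((C → V) ⧸ NN U) :=
        Submodule.span ℝ {v | ∃ i ∈ T, ∃ c, io U x c (i : P) = v} with hY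
      set T' : Finset P := T.map (Function.Embedding.subtype _) with hT'
      have hTc : T'.card = T.card := by rw [hT', card_map]
      have hmem : ∀ p ∈ T', ∀ c, io U x c p ∈ Y := by
        intro p hp c
        obtain ⟨i, hi, rfl⟩ := Finset.mem_map.1 hp
        exact Submodule.subset_span ⟨i, hi, c, rfl⟩
      by_cases hsm : ∃ c, T'.card ≤ finrank ℝ V - finrank ℝ (U c)
      · obtain ⟨c, hc⟩ := hsm
        have hli : LinearIndependent ℝ (fun p : T' => io U x c (p : P)) := by
          have h1 : LinearIndepOn ℝ (fun p => io U x c p) (T' : Set P) := by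
            rw [linearIndepOn_finset_iff]
            intro b hb
            exact hgp c T' hc b (io_rel_one U x c (hinj c) T' b hb)
          exact h1
        have h2 := finrank_span_eq_card hli
        rw [Fintype.card_coe] at h2
        rw [← hTc, ← h2]
        apply Submodule.finrank_mono
        rw [Submodule.span_le]
        rintro _ ⟨p, rfl⟩
        exact hmem p p.2 c
      · push Not at hsm
        have htop : Y = ⊤ := by
          rw [eq_top_iff]
          intro z _
          obtain ⟨f, rfl⟩ := (NN U).mkQ_surjective z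
          rw [← Finset.univ_sum_single f, map_sum]
          apply Submodule.sum_mem
          intro c _
          obtain ⟨S, hST, hS⟩ := Finset.exists_subset_card_eq (hsm c).le
          obtain ⟨b, hb⟩ := mk_span (U c) x S hS (hgp c S hS.le) (f c)
          have h1 : (NN U).mkQ (Pi.single c (f c)) = ∑ p ∈ S, b p • io U x c p := by
            have h2 : (Pi.single c (f c) : C → V) = (Pi.single c (f c - ∑ p ∈ S, b p • x p) : C → V)
                + ∑ p ∈ S, b p • (Pi.single c (x p) : C → V) := by
              funext i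
              rw [Pi.add_apply, Finset.sum_apply]
              by_cases hi : i = c
              · subst hi
                simp
              · rw [Pi.single_eq_of_ne hi, Pi.single_eq_of_ne hi]
                symm
                rw [zero_add]
                apply Finset.sum_eq_zero
                intro p _
                rw [Pi.smul_apply, Pi.single_eq_of_ne hi, smul_zero]
            have h3 : (NN U).mkQ (Pi.single c (f c - ∑ p ∈ S, b p • x p)) = 0 := by
              rw [Submodule.mkQ_apply, Submodule.Quotient.mk_eq_zero, mem_NN]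
              refine ⟨0, fun i => ?_⟩
              rw [sub_zero]
              by_cases hi : i = c
              · subst hi
                simpa using hb
              · rw [Pi.single_eq_of_ne hi]
                exact Submodule.zero_mem _
            rw [h2, map_add, h3, zero_add, map_sum]
            apply Finset.sum_congr rfl
            intro p _
            rw [map_smul]
            rfl
          rw [h1]
          exact Submodule.sum_mem _ fun p hp => Submodule.smul_mem _ _ (hmem p (hST hp) c)
        rw [htop, finrank_top]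
        have h1 : T.card ≤ ((univ : Finset P).erase x0).card := by
          rw [← hTc]
          apply Finset.card_le_card
          intro p hp
          obtain ⟨i, _, rfl⟩ := Finset.mem_map.1 hp
          exact i.2
        rw [Finset.card_erase_of_mem (mem_univ x0)] at h1
        omega)
  -- the colouring on all rows
  let s0 : P → C := fun y => if h : y ∈ (univ : Finset P).erase x0 then t ⟨y, h⟩ else
    Classical.arbitrary C
  have hs0 : (fun y : ((univ : Finset P).erase x0 : Finset P) => io U x (s0 (y : P)) (y : P))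
      = fun y => io U x (t y) (y : P) := by
    funext y
    have h1 : s0 (y : P) = t y := by
      simp only [s0]
      rw [dif_pos y.2]
    rw [h1]
  -- the complex is good
  have hgood : Good (fun c A => ∃ l : Dual ℝ (V ⧸ U c), ∀ p ∈ A, 0 < l ((U c).mkQ (x p)))
      (univ : Finset P) :=
    good_of_rule hW univ _ (fun c => finrank ℝ V - finrank ℝ (U c)) (finrank ℝ V) hcol hd
      (by rw [Finset.card_univ]; omega) (by rw [Finset.card_univ]; exact hm)
  obtain ⟨s, a, ha, ⟨y, _, hy⟩, hD, hrel⟩ := step_one' (univ : Finset P) (fun c p => io U x c p)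
    (fun c A => ∃ l : Dual ℝ (V ⧸ U c), ∀ p ∈ A, 0 < l ((U c).mkQ (x p))) hdim
    (fun p _ => io_sum_zero U x p) (fun c A _ h => pt_of_li U x c A h) x0 (mem_univ x0) s0
    (by rw [hs0]; exact ht) hgood
  obtain ⟨u, hu⟩ := io_rel U x s univ a hrel
  refine ⟨s, a, u, fun p => ha p (mem_univ p), ?_, hu⟩
  rintro rfl
  -- all coefficients vanish
  apply hy
  obtain ⟨l, hl⟩ := hD (s y)
  have h1 := hu (s y)
  rw [sub_zero] at h1
  have h2 : (U (s y)).mkQ (∑ p with s p = s y, a p • x p) = 0 := by
    rw [Submodule.mkQ_apply, Submodule.Quotient.mk_eq_zero]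
    exact h1
  have h3 : ∑ p with s p = s y, a p * l ((U (s y)).mkQ (x p)) = 0 := by
    have h4 := congrArg l h2
    rw [map_zero, map_sum, map_sum] at h4
    rw [← h4]
    apply Finset.sum_congr rfl
    intro p _
    rw [map_smul, map_smul, smul_eq_mul]
  have h5 := (Finset.sum_eq_zero_iff_of_nonneg (fun p hp =>
    mul_nonneg (ha p (mem_univ p)) (hl p hp).le)).1 h3 y (by simp)
  exact (mul_eq_zero.1 h5).resolve_right (hl y (by simp)).ne'

end

end Pool.Agent.KAL
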