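import Pool.Agent.Lib_helper17.KAL.LpCore
import Pool.Agent.Lib_helper32.FL.ColPt

set_option autoImplicit false

/-! # The linear programme is solvable below the threshold -/

namespace Pool.Agent.KAL
open Finset Function Module

/-- If the number of rows is at most the threshold `W D`, some assignment of the rows to the columns
with non-negative weights gives all columns the same non-zero vector `u`. -/
theorem lp_main {V : Type*} [AddCommGroup V] [Module ℝ V] [FiniteDimensional ℝ V] (C P : Type*)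
    [Fintype C] [DecidableEq C] [Nonempty C] [Fintype P] [DecidableEq P]
    (U : C → Submodule ℝ V) (x : P → V) (d : ℕ) (W : ℤ → ℕ) (hW : Rule d W)
    (_hU : ∀ c, U c ≠ ⊤) (hd : ∀ c, finrank ℝ V - finrank ℝ (U c) ≤ d)
    (hcard : Fintype.card P + finrank ℝ V = ∑ c, (finrank ℝ V - finrank ℝ (U c)) + 1)
    (hinj : ∀ c v, (∀ i, i ≠ c → v ∈ U i) → v = 0)
    (hgp : ∀ c (T : Finset P), T.card ≤ finrank ℝ V - finrank ℝ (U c) →
      ∀ b : P → ℝ, ∑ p ∈ T, b p • x p ∈ U c → ∀ p ∈ T, b p = 0)
    (hm : Fintype.card P ≤ W (finrank ℝ V)) :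
    ∃ (s : P → C) (a : P → ℝ) (u : V), (∀ p, 0 ≤ a p) ∧ u ≠ 0 ∧
      (∀ c, ∑ p with s p = c, a p • x p - u ∈ U c) := by
  refine lp_core U x d W hW hd hcard hinj hgp hm fun c => ?_
  have hfr : finrank ℝ (V ⧸ U c) = finrank ℝ V - finrank ℝ (U c) := by
    have := Submodule.finrank_quotient_add_finrank (U c)
    omega
  have hg : GPos (fun p => (U c).mkQ (x p)) (∅ ∪ (univ : Finset P)) := by
    intro T _ hT b hb
    rw [hfr] at hT
    apply hgp c T hT b
    rw [← Submodule.Quotient.mk_eq_zero, ← Submodule.mkQ_apply, map_sum]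
    simpa using hb
  have h1 := col_pt (fun p => (U c).mkQ (x p)) ∅ univ hg (disjoint_empty_left _) (Nat.zero_le _)
  rw [hfr] at h1
  simpa [Pt] using h1

end Pool.Agent.KAL
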