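import Pool.Agent.Lib_helper17.KAL.Theta

set_option autoImplicit false

namespace Pool.Agent.KAL
open Finset Function

theorem sum_update_all {P C : Type*} [Fintype P] [DecidableEq P] [Fintype C]
    (x : P) (F : (P → C) → ℝ) :
    ∑ s : P → C, ∑ c : C, F (update s x c) = (Fintype.card C : ℝ) * ∑ s : P → C, F s := by
  classical
  have h1 : ∑ s : P → C, ∑ c : C, F (update s x c) =
      ∑ q : (P → C) × C, F (update q.1 x q.2) := by
    rw [Fintype.sum_prod_type]
  have h2 : ∑ q : (P → C) × C, F (update q.1 x q.2) = ∑ q : (P → C) × C, F q.1 := by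
    apply Fintype.sum_bijective (fun q : (P → C) × C => (update q.1 x q.2, q.1 x))
    · apply Function.Involutive.bijective
      intro q
      simp
    · intro q
      rfl
  rw [h1, h2, Fintype.sum_prod_type]
  simp only [Finset.sum_const, card_univ, nsmul_eq_mul, ← Finset.mul_sum]

section
variable {P C M : Type*} [Fintype P] [DecidableEq P] [Fintype C] [DecidableEq C]
  [AddCommGroup M] [Module ℝ M]

omit [Fintype P] in
theorem sum_attach_ext (R : Finset P) (f : R → ℝ) (v : P → M) :
    ∑ y ∈ R, (if h : y ∈ R then f ⟨y, h⟩ else 0) • v y = ∑ y : R, f y • v y := by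
  rw [← Finset.sum_coe_sort R]
  apply Finset.sum_congr rfl
  intro y _
  simp

theorem step_one [FiniteDimensional ℝ M] (R : Finset P) (iota : C → P → M)
    (D : C → Finset P → Prop) (hdim : Module.finrank ℝ M + 1 = R.card)
    (hsum : ∀ x ∈ R, ∑ c, iota c x = 0)
    (h1 : ∀ (c : C) (A : Finset P), A ⊆ R →
      LinearIndependent ℝ (fun y : A => iota c (y : P)) → D c A)
    (c0 : C) (S : Finset P) (hS : S ⊆ R) (x0 : P) (hx0 : x0 ∈ S)
    (b : P → ℝ) (hb : ∀ y ∈ S, 0 < b y)
    (hrel : ∑ y ∈ S, b y • iota c0 y = 0)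
    (hface : ∀ x ∈ S, D c0 (S.erase x))
    (hspan : ∀ y ∈ R, y ∉ S →
      iota c0 y ∈ Submodule.span ℝ {q | ∃ z ∈ S, z ≠ x0 ∧ q = iota c0 z})
    (s0 : P → C) (hs0 : ∀ y ∈ S, y ≠ x0 → s0 y = c0) (hs1 : ∀ y ∈ R, y ∉ S → s0 y ≠ c0)
    (hbas : LinearIndependent ℝ (fun y : (R.erase x0 : Finset P) => iota (s0 (y : P)) (y : P)))
    (hgood : Good D R) :
    ∃ (s : P → C) (a : P → ℝ), (∀ y ∈ R, 0 ≤ a y) ∧ (∃ y ∈ R, a y ≠ 0) ∧
      (∀ c, D c (R.filter (fun y => s y = c))) ∧ ∑ y ∈ R, a y • iota (s y) y = 0 := by
  classical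
  by_contra hcon
  -- no non-negative relation along a colouring all of whose classes are faces
  have hno : ∀ s : P → C, (∀ c, D c (R.filter (fun y => s y = c))) →
      ∀ a : R → ℝ, (∀ y, 0 ≤ a y) → ∑ y : R, a y • iota (s y) y = 0 → a = 0 := by
    intro s hs a ha hrel'
    by_contra hne
    apply hcon
    refine ⟨s, fun y => if h : y ∈ R then a ⟨y, h⟩ else 0, ?_, ?_, hs, ?_⟩
    · intro y hy
      simp only [dif_pos hy]
      exact ha _
    · obtain ⟨y, hy⟩ := Function.ne_iff.1 hne
      exact ⟨y, y.2, by simpa using hy⟩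
    · rw [sum_attach_ext R a (fun y => iota (s y) y)]
      exact hrel'
  have hfr : Module.finrank ℝ (M × ℝ) = Module.finrank ℝ (R → ℝ) := by
    rw [Module.finrank_prod, Module.finrank_self, Module.finrank_fintype_fun_eq_card, hdim]
    simp
  let e : (M × ℝ) ≃ₗ[ℝ] (R → ℝ) := LinearEquiv.ofFinrankEq _ _ hfr
  let z0 : R := ⟨x0, hS hx0⟩
  -- the colouring s0 gives a basis
  have hlam0 : lam R iota e s0 z0 ≠ 0 := by
    apply lam_ne_of_li
    intro d hd hd2
    have h2 := Fintype.linearIndependent_iff.1 hbas (fun y => d ⟨y, (mem_erase.1 y.2).2⟩) (by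
      have h3 : ∑ y : R, d y • iota (s0 y) (y : P) =
          ∑ y ∈ R, (if h : y ∈ R then d ⟨y, h⟩ else 0) • iota (s0 y) y :=
        (sum_attach_ext R d (fun y => iota (s0 y) y)).symm
      rw [h3, ← Finset.add_sum_erase R _ (hS hx0)] at hd2
      have h4 : (if h : x0 ∈ R then d ⟨x0, h⟩ else 0) = 0 := by
        rw [dif_pos (hS hx0)]; exact hd
      rw [h4, zero_smul, zero_add, ← Finset.sum_coe_sort (R.erase x0)] at hd2
      rw [← hd2]
      apply Finset.sum_congr rfl
      intro y _
      rw [dif_pos (mem_erase.1 y.2).2])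
    funext y
    by_cases hy : (y : P) = x0
    · have : y = z0 := Subtype.ext hy
      rw [this, hd]; rfl
    · exact h2 ⟨y, mem_erase.2 ⟨hy, y.2⟩⟩
  -- generic point of the open cone of the colouring s0
  obtain ⟨p, hpc, hpg⟩ : ∃ p : M, InCone R iota p s0 z0 ∧
      ∀ (s : P → C) (x y : R), y ≠ x → lam R iota e s x ≠ 0 → p ∉ W2 R iota s x y := by
    let I := {t : (P → C) × R × R // t.2.2 ≠ t.2.1 ∧ lam R iota e t.1 t.2.1 ≠ 0}
    let W : I → Submodule ℝ M := fun t => W2 R iota t.1.1 t.1.2.1 t.1.2.2
    have hW : ∀ i, W i ≠ ⊤ := fun i => W2_ne_top R iota e i.2.1 i.2.2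
    let p0 : M := ∑ y : R, (if y = z0 then (0 : ℝ) else 1) • iota (s0 y) (y : P)
    obtain ⟨q, hq⟩ := exists_avoid_near W hW p0
    obtain ⟨γ, hγ0, hγ⟩ := lam_span R iota e s0 z0 hlam0 q
    -- bound for γ
    obtain ⟨B, hB⟩ : ∃ B : ℝ, ∀ y, |γ y| ≤ B := by
      refine ⟨∑ y, |γ y|, fun y => ?_⟩
      exact Finset.single_le_sum (f := fun y => |γ y|) (fun i _ => abs_nonneg _) (mem_univ y)
    have hB0 : 0 ≤ B := (abs_nonneg _).trans (hB z0)
    obtain ⟨t, ht0, ht1, ht⟩ := hq (1 / (B + 1)) (by positivity)
    refine ⟨p0 + t • q, ⟨fun y => (if y = z0 then (0 : ℝ) else 1) + t * γ y, ?_, ?_, ?_⟩, ?_⟩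
    · simp [hγ0]
    · intro y hy
      show 0 < (if y = z0 then (0 : ℝ) else 1) + t * γ y
      rw [if_neg hy]
      have h5 : t * |γ y| < 1 := by
        have h6 : t * |γ y| ≤ t * B := mul_le_mul_of_nonneg_left (hB y) ht0.le
        have h7 : t * (B + 1) < 1 := by
          rw [lt_div_iff₀ (by positivity)] at ht1
          exact ht1
        nlinarith
      have h8 : - (t * |γ y|) ≤ t * γ y := by
        have := mul_le_mul_of_nonneg_left (neg_abs_le (γ y)) ht0.le
        linarith
      linarith
    · rw [← hγ, Finset.smul_sum, ← Finset.sum_add_distrib]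
      apply Finset.sum_congr rfl
      intro y _
      rw [add_smul, mul_smul]
    · intro s x y hxy hx
      exact ht ⟨(s, x, y), hxy, hx⟩
  -- the colouring with c0 on S
  let pr : (P → C) → (P → C) := fun s y => if y ∈ S then c0 else s y
  let Y : (P → C) → ℝ := fun s => lam R iota e (pr s) z0
  let cond : P → (P → C) → Prop := fun x s =>
    x ∈ S ∧ (∀ y ∈ S, y ≠ x → s y = c0) ∧ (∀ y ∈ R, y ∉ S → s y ≠ c0)
  let g : P → (P → C) → ℝ := fun x s => if cond x s then Y s else 0
  have hYcongr : ∀ s s' : P → C, (∀ y ∈ R, y ∉ S → s y = s' y) → Y s = Y s' := by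
    intro s s' h
    apply lam_congr
    intro y hy _
    simp only [pr]
    by_cases hyS : y ∈ S
    · rw [if_pos hyS, if_pos hyS]
    · rw [if_neg hyS, if_neg hyS, h y hy hyS]
  have hcondcongr : ∀ (x : P) (s s' : P → C), (∀ y ∈ R, y ≠ x → s y = s' y) →
      (cond x s → cond x s') := by
    rintro x s s' h ⟨c1, c2, c3⟩
    refine ⟨c1, ?_, ?_⟩
    · intro y hy hyx
      rw [← h y (hS hy) hyx]; exact c2 y hy hyx
    · intro y hy hyS
      have hyx : y ≠ x := by rintro rfl; exact hyS c1
      rw [← h y hy hyx]; exact c3 y hy hyS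
  have hDep : ∀ x ∈ R, Dep (R.erase x) (g x) := by
    intro x hx s s' h
    have h' : ∀ y ∈ R, y ≠ x → s y = s' y := fun y hy hyx => h y (mem_erase.2 ⟨hyx, hy⟩)
    simp only [g]
    by_cases hc : cond x s
    · have hc' := hcondcongr x s s' h' hc
      rw [if_pos hc, if_pos hc']
      apply hYcongr
      intro y hy hyS
      apply h' y hy
      rintro rfl
      exact hyS hc.1
    · have hc' : ¬ cond x s' := fun h2 => hc (hcondcongr x s' s (fun y hy hyx => (h' y hy hyx).symm) h2)
      rw [if_neg hc, if_neg hc']
  have hSupp : ∀ x ∈ R, Supp D (R.erase x) (g x) := by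
    intro x hx s hs c
    have hc : cond x s := by
      by_contra hc
      apply hs
      simp only [g, if_neg hc]
    have hY : Y s ≠ 0 := by
      intro h
      apply hs
      simp only [g, if_pos hc, h]
    by_cases hcc : c = c0
    · subst hcc
      have h2 : (R.erase x).filter (fun y => s y = c) = S.erase x := by
        ext y
        simp only [mem_filter, mem_erase]
        constructor
        · rintro ⟨⟨h3, h4⟩, h5⟩
          refine ⟨h3, ?_⟩
          by_contra h6
          exact hc.2.2 y h4 h6 h5
        · rintro ⟨h3, h4⟩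
          exact ⟨⟨h3, hS h4⟩, hc.2.1 y h4 h3⟩
      rw [h2]
      exact hface x hc.1
    · apply h1 c _ ((filter_subset _ _).trans (erase_subset _ _))
      set A := (R.erase x).filter (fun y => s y = c) with hA
      rw [Fintype.linearIndependent_iff]
      intro d hd y
      have hAR : ∀ y ∈ A, y ∈ R := fun y hy => (mem_erase.1 (mem_filter.1 hy).1).2
      have hAS : ∀ y ∈ A, y ∉ S := by
        intro y hy hyS
        have h3 := mem_filter.1 hy
        have h4 := hc.2.1 y hyS (mem_erase.1 h3.1).1
        exact hcc (h3.2.symm.trans h4)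
      have h4 := lam_li R iota e (pr s) z0 hY
        (fun z => if h : (z : P) ∈ A then d ⟨z, h⟩ else 0)
        (by
          have : (z0 : P) ∉ A := fun h => hAS _ h hx0
          simp only [dif_neg this])
        (by
          have h5 : ∑ z : R, (if h : (z : P) ∈ A then d ⟨z, h⟩ else 0) • iota (pr s z) (z : P) =
              ∑ z ∈ R, (if h : z ∈ A then d ⟨z, h⟩ else 0) • iota (pr s z) z :=
            Finset.sum_coe_sort R (fun z => (if h : z ∈ A then d ⟨z, h⟩ else 0) • iota (pr s z) z)
          rw [h5, ← Finset.sum_subset (s₁ := A) (fun z hz => hAR z hz)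
            (fun z _ hz => by rw [dif_neg hz, zero_smul]), ← Finset.sum_coe_sort A, ← hd]
          apply Finset.sum_congr rfl
          intro z _
          rw [dif_pos z.2]
          have h6 : pr s z = c := by
            simp only [pr, if_neg (hAS _ z.2)]
            exact (mem_filter.1 z.2).2
          rw [h6])
      have h7 := congrFun h4 ⟨y, hAR _ y.2⟩
      simpa using h7
  -- the cocycle condition
  have hvan : ∀ (x y : P), x ∈ S → y ∈ R → y ∉ S → ∀ s : P → C,
      ∑ c, g x (update s y c) = 0 := by
    intro x y hxS hyR hyS s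
    by_cases hcc : (∀ z ∈ S, z ≠ x → s z = c0) ∧ (∀ z ∈ R, z ∉ S → z ≠ y → s z ≠ c0)
    · let yy : R := ⟨y, hyR⟩
      have hyz : yy ≠ z0 := by
        intro h
        apply hyS
        have : y = x0 := congrArg Subtype.val h
        rw [this]; exact hx0
      obtain ⟨ψ, hψ1, hψ2⟩ := lam_row R iota e (pr s) z0 yy hyz
      have hY : ∀ c, Y (update s y c) = ψ (iota c y) := by
        intro c
        have h3 := hψ1 c
        rw [← h3]
        simp only [Y]
        apply lam_congr
        intro z hz _
        simp only [pr]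
        by_cases hzy : z = y
        · subst hzy
          simp [hyS, yy]
        · simp only [update_of_ne hzy, yy]
      have hg : ∀ c, g x (update s y c) = if c = c0 then 0 else ψ (iota c y) := by
        intro c
        simp only [g]
        by_cases hc0 : c = c0
        · rw [if_pos hc0, if_neg]
          rintro ⟨-, -, h3⟩
          apply h3 y hyR hyS
          simp [hc0]
        · rw [if_neg hc0, if_pos, hY c]
          refine ⟨hxS, ?_, ?_⟩
          · intro z hz hzx
            have hzy : z ≠ y := by rintro rfl; exact hyS hz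
            rw [update_of_ne hzy]
            exact hcc.1 z hz hzx
          · intro z hz hzS
            by_cases hzy : z = y
            · subst hzy; simpa using hc0
            · rw [update_of_ne hzy]
              exact hcc.2 z hz hzS hzy
      have hψ0 : ψ (iota c0 y) = 0 := by
        have h3 : Submodule.span ℝ {q | ∃ z ∈ S, z ≠ x0 ∧ q = iota c0 z} ≤ LinearMap.ker ψ := by
          rw [Submodule.span_le]
          rintro q ⟨z, hzS, hzx, rfl⟩
          have h4 := hψ2 ⟨z, hS hzS⟩ (fun h => hzx (congrArg Subtype.val h))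
            (fun h => hyS (by
              have h9 : z = y := congrArg Subtype.val h
              rw [← h9]; exact hzS))
          simp only [pr, if_pos hzS] at h4
          exact h4
        exact h3 (hspan y hyR hyS)
      have h5 : ∑ c, g x (update s y c) = ∑ c, ψ (iota c y) := by
        apply Finset.sum_congr rfl
        intro c _
        rw [hg c]
        by_cases hc0 : c = c0
        · rw [if_pos hc0, hc0, hψ0]
        · rw [if_neg hc0]
      rw [h5, ← map_sum, hsum y hyR, map_zero]
    · apply Finset.sum_eq_zero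
      intro c _
      simp only [g]
      rw [if_neg]
      rintro ⟨-, h2, h3⟩
      apply hcc
      refine ⟨?_, ?_⟩
      · intro z hz hzx
        have hzy : z ≠ y := by rintro rfl; exact hyS hz
        have := h2 z hz hzx
        rwa [update_of_ne hzy] at this
      · intro z hz hzS hzy
        have := h3 z hz hzS
        rwa [update_of_ne hzy] at this
  have hnotS : ∀ (x y : P), x ∉ S → ∀ s : P → C, ∑ c, g x (update s y c) = 0 := by
    intro x y hxS s
    apply Finset.sum_eq_zero
    intro c _
    simp only [g]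
    rw [if_neg]
    rintro ⟨h2, -⟩
    exact hxS h2
  have hSS : ∀ (x y : P), x ∈ S → y ∈ S → x ≠ y → ∀ s : P → C,
      ∑ c, g x (update s y c) =
        if (∀ z ∈ S, z ≠ x → z ≠ y → s z = c0) ∧ (∀ z ∈ R, z ∉ S → s z ≠ c0) then Y s else 0 := by
    intro x y hxS hyS hxy s
    rw [Finset.sum_eq_single c0]
    · simp only [g]
      have hYs : Y (update s y c0) = Y s := by
        apply hYcongr
        intro z hz hzS
        have hzy : z ≠ y := by rintro rfl; exact hzS hyS
        rw [update_of_ne hzy]
      by_cases hcc : (∀ z ∈ S, z ≠ x → z ≠ y → s z = c0) ∧ (∀ z ∈ R, z ∉ S → s z ≠ c0)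
      · rw [if_pos hcc, if_pos, hYs]
        refine ⟨hxS, ?_, ?_⟩
        · intro z hz hzx
          by_cases hzy : z = y
          · subst hzy; simp
          · rw [update_of_ne hzy]; exact hcc.1 z hz hzx hzy
        · intro z hz hzS
          have hzy : z ≠ y := by rintro rfl; exact hzS hyS
          rw [update_of_ne hzy]; exact hcc.2 z hz hzS
      · rw [if_neg hcc, if_neg]
        rintro ⟨-, h2, h3⟩
        apply hcc
        refine ⟨?_, ?_⟩
        · intro z hz hzx hzy
          have := h2 z hz hzx
          rwa [update_of_ne hzy] at this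
        · intro z hz hzS
          have hzy : z ≠ y := by rintro rfl; exact hzS hyS
          have := h3 z hz hzS
          rwa [update_of_ne hzy] at this
    · intro c _ hc
      simp only [g]
      rw [if_neg]
      rintro ⟨-, h2, -⟩
      have := h2 y hyS (Ne.symm hxy)
      rw [update_self] at this
      exact hc this
    · intro h'; exact absurd (mem_univ _) h'
  have hcoc : ∀ x ∈ R, ∀ y ∈ R, x ≠ y → ∀ s : P → C,
      ∑ c, g x (update s y c) = ∑ c, g y (update s x c) := by
    intro x hx y hy hxy s
    by_cases hxS : x ∈ S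
    · by_cases hyS : y ∈ S
      · rw [hSS x y hxS hyS hxy s, hSS y x hyS hxS (Ne.symm hxy) s]
        have : (∀ z ∈ S, z ≠ x → z ≠ y → s z = c0) ↔ (∀ z ∈ S, z ≠ y → z ≠ x → s z = c0) :=
          ⟨fun h z hz h1 h2 => h z hz h2 h1, fun h z hz h1 h2 => h z hz h2 h1⟩
        simp only [this]
      · rw [hvan x y hxS hy hyS s, hnotS y x hyS s]
    · by_cases hyS : y ∈ S
      · rw [hnotS x y hxS s, hvan y x hyS hx hxS s]
      · rw [hnotS x y hxS s, hnotS y x hyS s]
  obtain ⟨w, -, hwS, hw⟩ := hgood g hDep hSupp hcoc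
  -- the pairing
  have hzero : ∑ x : R, ∑ s : P → C, theta R iota e p s x * g x s = 0 := by
    have h2 : ∀ x : R, ∑ s : P → C, theta R iota e p s x * g x s =
        (Fintype.card C : ℝ) * ∑ s : P → C, theta R iota e p s x * w s := by
      intro x
      rw [← sum_update_all (x : P) (fun s => theta R iota e p s x * w s)]
      apply Finset.sum_congr rfl
      intro s _
      rw [← hw x x.2 s, Finset.mul_sum]
      apply Finset.sum_congr rfl
      intro c _
      congr 1
      apply theta_congr
      intro y _ hy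
      rw [update_of_ne hy]
    rw [Finset.sum_congr rfl (fun x _ => h2 x), ← Finset.mul_sum, Finset.sum_comm]
    have h3 : ∀ s : P → C, ∑ x : R, theta R iota e p s x * w s = 0 := by
      intro s
      rw [← Finset.sum_mul]
      by_cases hws : w s = 0
      · rw [hws, mul_zero]
      · rw [theta_sum R iota e p s (fun x y hxy hx => hpg s x y hxy hx)
          (hno s (hwS s hws)), zero_mul]
    rw [Finset.sum_eq_zero (fun s _ => h3 s), mul_zero]
  -- positivity
  have hsign : ∀ (x : R) (s : P → C), 0 ≤ Real.sign (lam R iota e s x) * g x s ∧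
      (g x s ≠ 0 → 0 < Real.sign (lam R iota e s x) * g x s) := by
    intro x s
    by_cases hg0 : g x s = 0
    · rw [hg0]; simp
    have hc : cond x s := by
      by_contra hc
      apply hg0
      simp only [g, if_neg hc]
    have hgY : g x s = Y s := by simp only [g, if_pos hc]
    have hY : Y s ≠ 0 := by rw [← hgY]; exact hg0
    have hl1 : lam R iota e s x = lam R iota e (pr s) x := by
      apply lam_congr
      intro y hy hyx
      simp only [pr]
      by_cases hyS : y ∈ S
      · rw [if_pos hyS]; exact hc.2.1 y hyS hyx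
      · rw [if_neg hyS]
    -- relation of the colouring pr s
    have hb0 : 0 < b x0 := hb x0 hx0
    have hbt : ∑ y : R, (if (y : P) ∈ S then b y else 0) • iota (pr s y) (y : P) = 0 := by
      have h5 : ∑ y : R, (if (y : P) ∈ S then b y else 0) • iota (pr s y) (y : P) =
          ∑ y ∈ R, (if y ∈ S then b y else 0) • iota (pr s y) y :=
        Finset.sum_coe_sort R (fun y => (if y ∈ S then b y else 0) • iota (pr s y) y)
      rw [h5, ← Finset.sum_subset hS (fun z _ hz => by rw [if_neg hz, zero_smul]), ← hrel]
      apply Finset.sum_congr rfl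
      intro y hy
      rw [if_pos hy]
      simp only [pr, if_pos hy]
    have h6 := lam_li R iota e (pr s) z0 hY
      (fun y => lam R iota e (pr s) y - Y s / b x0 * (if (y : P) ∈ S then b y else 0))
      (by
        simp only [z0, if_pos hx0]
        rw [div_mul_cancel₀ _ hb0.ne']
        exact sub_self _)
      (by
        have h7 : ∑ y : R, (lam R iota e (pr s) y - Y s / b x0 * (if (y : P) ∈ S then b y else 0)) •
            iota (pr s y) (y : P) = ∑ y : R, lam R iota e (pr s) y • iota (pr s y) (y : P) -
            (Y s / b x0) • ∑ y : R, (if (y : P) ∈ S then b y else 0) • iota (pr s y) (y : P) := by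
          rw [Finset.smul_sum, ← Finset.sum_sub_distrib]
          apply Finset.sum_congr rfl
          intro z _
          rw [sub_smul, smul_smul]
        rw [h7, lam_rel, hbt, smul_zero, sub_zero])
    have h8 := congrFun h6 x
    simp only [Pi.zero_apply, if_pos hc.1, sub_eq_zero] at h8
    have hbx : 0 < b x := hb x hc.1
    have h9 : lam R iota e s x = Y s * (b x / b x0) := by
      rw [hl1, h8]; ring
    have hr : 0 < b x / b x0 := div_pos hbx hb0
    rw [hgY]
    rcases lt_or_gt_of_ne hY with h | h
    · have h10 : lam R iota e s x < 0 := by rw [h9]; exact mul_neg_of_neg_of_pos h hr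
      rw [Real.sign_of_neg h10]
      constructor <;> intros <;> linarith
    · have h10 : 0 < lam R iota e s x := by rw [h9]; exact mul_pos h hr
      rw [Real.sign_of_pos h10]
      constructor <;> intros <;> linarith
  have hterm : ∀ (x : R) (s : P → C), 0 ≤ theta R iota e p s x * g x s := by
    intro x s
    unfold theta
    by_cases hc : InCone R iota p s x
    · rw [if_pos hc]; exact (hsign x s).1
    · rw [if_neg hc, zero_mul]
  have hstrict : 0 < theta R iota e p s0 z0 * g z0 s0 := by
    unfold theta
    rw [if_pos hpc]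
    apply (hsign z0 s0).2
    have hc : cond z0 s0 := ⟨hx0, hs0, hs1⟩
    simp only [g, if_pos hc, Y]
    have h2 : lam R iota e (pr s0) z0 = lam R iota e s0 z0 := by
      apply lam_congr
      intro y hy hyx
      simp only [pr]
      by_cases hyS : y ∈ S
      · rw [if_pos hyS]; exact (hs0 y hyS hyx).symm
      · rw [if_neg hyS]
    rw [h2]
    exact hlam0
  have hpos : 0 < ∑ x : R, ∑ s : P → C, theta R iota e p s x * g x s := by
    apply Finset.sum_pos' (fun x _ => Finset.sum_nonneg (fun s _ => hterm x s))
    refine ⟨z0, mem_univ _, ?_⟩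
    exact Finset.sum_pos' (fun s _ => hterm z0 s) ⟨s0, mem_univ _, hstrict⟩
  linarith

end

end Pool.Agent.KAL
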