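import Pool.Agent.Lib_helper17.KAL.StepOne

set_option autoImplicit false

namespace Pool.Agent.KAL
open Finset Function

variable {P C M : Type*} [Fintype P] [DecidableEq P] [Fintype C] [DecidableEq C]
  [AddCommGroup M] [Module ℝ M]

/-- Step 1 without a circuit: if some colouring of `R.erase x0` is a basis of `M`, all independent
families are faces and the complex is `Good`, then some colouring with all classes faces carries a
non-trivial non-negative relation. -/
theorem step_one' [FiniteDimensional ℝ M] (R : Finset P) (iota : C → P → M)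
    (D : C → Finset P → Prop) (hdim : Module.finrank ℝ M + 1 = R.card)
    (hsum : ∀ x ∈ R, ∑ c, iota c x = 0)
    (h1 : ∀ (c : C) (A : Finset P), A ⊆ R →
      LinearIndependent ℝ (fun y : A => iota c (y : P)) → D c A)
    (x0 : P) (hx0 : x0 ∈ R) (s0 : P → C)
    (hbas : LinearIndependent ℝ (fun y : (R.erase x0 : Finset P) => iota (s0 (y : P)) (y : P)))
    (hgood : Good D R) :
    ∃ (s : P → C) (a : P → ℝ), (∀ y ∈ R, 0 ≤ a y) ∧ (∃ y ∈ R, a y ≠ 0) ∧
      (∀ c, D c (R.filter (fun y => s y = c))) ∧ ∑ y ∈ R, a y • iota (s y) y = 0 := by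
  classical
  by_contra hcon
  -- no non-negative relation along a colouring all of whose classes are faces
  have hno : ∀ s : P → C, (∀ c, D c (R.filter (fun y => s y = c))) →
      ∀ a : R → ℝ, (∀ y, 0 ≤ a y) → ∑ y : R, a y • iota (s y) y = 0 → a = 0 := by
    intro s hs a ha hrel'
    by_contra hne
    apply hcon
    refine ⟨s, fun y => if h : y ∈ R then a ⟨y, h⟩ else 0, ?_, ?_, hs, ?_⟩
    · intro y hy
      simp only [dif_pos hy]
      exact ha _
    · obtain ⟨y, hy⟩ := Function.ne_iff.1 hne
      exact ⟨y, y.2, by simpa using hy⟩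
    · rw [sum_attach_ext R a (fun y => iota (s y) y)]
      exact hrel'
  have hfr : Module.finrank ℝ (M × ℝ) = Module.finrank ℝ (R → ℝ) := by
    rw [Module.finrank_prod, Module.finrank_self, Module.finrank_fintype_fun_eq_card, hdim]
    simp
  let e : (M × ℝ) ≃ₗ[ℝ] (R → ℝ) := LinearEquiv.ofFinrankEq _ _ hfr
  let z0 : R := ⟨x0, hx0⟩
  -- the colouring s0 gives a basis
  have hlam0 : lam R iota e s0 z0 ≠ 0 := by
    apply lam_ne_of_li
    intro d hd hd2
    have h2 := Fintype.linearIndependent_iff.1 hbas (fun y => d ⟨y, (mem_erase.1 y.2).2⟩) (by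
      have h3 : ∑ y : R, d y • iota (s0 y) (y : P) =
          ∑ y ∈ R, (if h : y ∈ R then d ⟨y, h⟩ else 0) • iota (s0 y) y :=
        (sum_attach_ext R d (fun y => iota (s0 y) y)).symm
      rw [h3, ← Finset.add_sum_erase R _ hx0] at hd2
      have h4 : (if h : x0 ∈ R then d ⟨x0, h⟩ else 0) = 0 := by
        rw [dif_pos hx0]; exact hd
      rw [h4, zero_smul, zero_add, ← Finset.sum_coe_sort (R.erase x0)] at hd2
      rw [← hd2]
      apply Finset.sum_congr rfl
      intro y _
      rw [dif_pos (mem_erase.1 y.2).2])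
    funext y
    by_cases hy : (y : P) = x0
    · have : y = z0 := Subtype.ext hy
      rw [this, hd]; rfl
    · exact h2 ⟨y, mem_erase.2 ⟨hy, y.2⟩⟩
  -- generic point of the open cone of the colouring s0
  obtain ⟨p, hpc, hpg⟩ : ∃ p : M, InCone R iota p s0 z0 ∧
      ∀ (s : P → C) (x y : R), y ≠ x → lam R iota e s x ≠ 0 → p ∉ W2 R iota s x y := by
    let I := {t : (P → C) × R × R // t.2.2 ≠ t.2.1 ∧ lam R iota e t.1 t.2.1 ≠ 0}
    let W : I → Submodule ℝ M := fun t => W2 R iota t.1.1 t.1.2.1 t.1.2.2
    have hW : ∀ i, W i ≠ ⊤ := fun i => W2_ne_top R iota e i.2.1 i.2.2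
    let p0 : M := ∑ y : R, (if y = z0 then (0 : ℝ) else 1) • iota (s0 y) (y : P)
    obtain ⟨q, hq⟩ := exists_avoid_near W hW p0
    obtain ⟨γ, hγ0, hγ⟩ := lam_span R iota e s0 z0 hlam0 q
    -- bound for γ
    obtain ⟨B, hB⟩ : ∃ B : ℝ, ∀ y, |γ y| ≤ B := by
      refine ⟨∑ y, |γ y|, fun y => ?_⟩
      exact Finset.single_le_sum (f := fun y => |γ y|) (fun i _ => abs_nonneg _) (mem_univ y)
    have hB0 : 0 ≤ B := (abs_nonneg _).trans (hB z0)
    obtain ⟨t, ht0, ht1, ht⟩ := hq (1 / (B + 1)) (by positivity)
    refine ⟨p0 + t • q, ⟨fun y => (if y = z0 then (0 : ℝ) else 1) + t * γ y, ?_, ?_, ?_⟩, ?_⟩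
    · simp [hγ0]
    · intro y hy
      show 0 < (if y = z0 then (0 : ℝ) else 1) + t * γ y
      rw [if_neg hy]
      have h5 : t * |γ y| < 1 := by
        have h6 : t * |γ y| ≤ t * B := mul_le_mul_of_nonneg_left (hB y) ht0.le
        have h7 : t * (B + 1) < 1 := by
          rw [lt_div_iff₀ (by positivity)] at ht1
          exact ht1
        nlinarith
      have h8 : - (t * |γ y|) ≤ t * γ y := by
        have := mul_le_mul_of_nonneg_left (neg_abs_le (γ y)) ht0.le
        linarith
      linarith
    · rw [← hγ, Finset.smul_sum, ← Finset.sum_add_distrib]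
      apply Finset.sum_congr rfl
      intro y _
      rw [add_smul, mul_smul]
    · intro s x y hxy hx
      exact ht ⟨(s, x, y), hxy, hx⟩
  let g : P → (P → C) → ℝ := fun x s => if x = x0 then lam R iota e s z0 else 0
  have hDep : ∀ x ∈ R, Dep (R.erase x) (g x) := by
    intro x hx s s' h
    simp only [g]
    by_cases hxx : x = x0
    · subst hxx
      rw [if_pos rfl, if_pos rfl]
      apply lam_congr
      intro y hy hyx
      exact h y (mem_erase.2 ⟨hyx, hy⟩)
    · rw [if_neg hxx, if_neg hxx]
  have hSupp : ∀ x ∈ R, Supp D (R.erase x) (g x) := by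
    intro x hx s hs c
    have hxx : x = x0 := by
      by_contra hxx
      apply hs
      simp only [g, if_neg hxx]
    subst hxx
    have hY : lam R iota e s z0 ≠ 0 := by
      intro h
      apply hs
      simp only [g, if_true, h]
    apply h1 c _ ((filter_subset _ _).trans (erase_subset _ _))
    set A := (R.erase x).filter (fun y => s y = c) with hA
    rw [Fintype.linearIndependent_iff]
    intro d hd y
    have hAR : ∀ y ∈ A, y ∈ R := fun y hy => (mem_erase.1 (mem_filter.1 hy).1).2
    have hAx : x ∉ A := fun h => (mem_erase.1 (mem_filter.1 h).1).1 rfl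
    have h4 := lam_li R iota e s z0 hY
      (fun z => if h : (z : P) ∈ A then d ⟨z, h⟩ else 0)
      (by
        have : (z0 : P) ∉ A := hAx
        simp only [dif_neg this])
      (by
        have h5 : ∑ z : R, (if h : (z : P) ∈ A then d ⟨z, h⟩ else 0) • iota (s z) (z : P) =
            ∑ z ∈ R, (if h : z ∈ A then d ⟨z, h⟩ else 0) • iota (s z) z :=
          Finset.sum_coe_sort R (fun z => (if h : z ∈ A then d ⟨z, h⟩ else 0) • iota (s z) z)
        rw [h5, ← Finset.sum_subset (s₁ := A) (fun z hz => hAR z hz)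
          (fun z _ hz => by rw [dif_neg hz, zero_smul]), ← Finset.sum_coe_sort A, ← hd]
        apply Finset.sum_congr rfl
        intro z _
        rw [dif_pos z.2, (mem_filter.1 z.2).2])
    have h7 := congrFun h4 ⟨y, hAR _ y.2⟩
    simpa using h7
  have hvan : ∀ y ∈ R, y ≠ x0 → ∀ s : P → C, ∑ c, g x0 (update s y c) = 0 := by
    intro y hyR hyx s
    let yy : R := ⟨y, hyR⟩
    have hyz : yy ≠ z0 := fun h => hyx (congrArg Subtype.val h)
    obtain ⟨ψ, hψ1, -⟩ := lam_row R iota e s z0 yy hyz
    have h5 : ∑ c, g x0 (update s y c) = ∑ c, ψ (iota c y) := by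
      apply Finset.sum_congr rfl
      intro c _
      rw [← hψ1 c]
      simp only [g, if_true, yy]
    rw [h5, ← map_sum, hsum y hyR, map_zero]
  have hnot : ∀ x y : P, x ≠ x0 → ∀ s : P → C, ∑ c, g x (update s y c) = 0 := by
    intro x y hx s
    apply Finset.sum_eq_zero
    intro c _
    simp only [g, if_neg hx]
  have hcoc : ∀ x ∈ R, ∀ y ∈ R, x ≠ y → ∀ s : P → C,
      ∑ c, g x (update s y c) = ∑ c, g y (update s x c) := by
    intro x hx y hy hxy s
    by_cases hxx : x = x0
    · have hyx : y ≠ x0 := fun h => hxy (hxx.trans h.symm)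
      rw [hnot y x hyx s, hxx, hvan y hy hyx s]
    · by_cases hyy : y = x0
      · rw [hnot x y hxx s, hyy, hvan x hx hxx s]
      · rw [hnot x y hxx s, hnot y x hyy s]
  obtain ⟨w, -, hwS, hw⟩ := hgood g hDep hSupp hcoc
  -- the pairing
  have hzero : ∑ s : P → C, theta R iota e p s z0 * g z0 s = 0 := by
    have h2 : ∀ x : R, ∑ s : P → C, theta R iota e p s x * g x s =
        (Fintype.card C : ℝ) * ∑ s : P → C, theta R iota e p s x * w s := by
      intro x
      rw [← sum_update_all (x : P) (fun s => theta R iota e p s x * w s)]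
      apply Finset.sum_congr rfl
      intro s _
      rw [← hw x x.2 s, Finset.mul_sum]
      apply Finset.sum_congr rfl
      intro c _
      congr 1
      apply theta_congr
      intro y _ hy
      rw [update_of_ne hy]
    have h0 : ∑ x : R, ∑ s : P → C, theta R iota e p s x * g x s = 0 := by
      rw [Finset.sum_congr rfl (fun x _ => h2 x), ← Finset.mul_sum, Finset.sum_comm]
      have h3 : ∀ s : P → C, ∑ x : R, theta R iota e p s x * w s = 0 := by
        intro s
        rw [← Finset.sum_mul]
        by_cases hws : w s = 0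
        · rw [hws, mul_zero]
        · rw [theta_sum R iota e p s (fun x y hxy hx => hpg s x y hxy hx)
            (hno s (hwS s hws)), zero_mul]
      rw [Finset.sum_eq_zero (fun s _ => h3 s), mul_zero]
    rw [Finset.sum_eq_single z0] at h0
    · exact h0
    · intro x _ hx
      apply Finset.sum_eq_zero
      intro s _
      have hxx : (x : P) ≠ x0 := fun h => hx (Subtype.ext h)
      simp only [g, if_neg hxx, mul_zero]
    · intro h'; exact absurd (mem_univ _) h'
  have hsign : ∀ t : ℝ, 0 ≤ Real.sign t * t ∧ (t ≠ 0 → 0 < Real.sign t * t) := by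
    intro t
    rcases lt_trichotomy t 0 with h | h | h
    · rw [Real.sign_of_neg h]
      constructor <;> intros <;> linarith
    · rw [h]; simp
    · rw [Real.sign_of_pos h]
      constructor <;> intros <;> linarith
  have hg0 : ∀ s, g z0 s = lam R iota e s z0 := fun s => by simp only [g, z0, if_true]
  have hterm : ∀ s : P → C, 0 ≤ theta R iota e p s z0 * g z0 s := by
    intro s
    rw [hg0]
    unfold theta
    by_cases hc : InCone R iota p s z0
    · rw [if_pos hc]; exact (hsign _).1
    · rw [if_neg hc, zero_mul]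
  have hstrict : 0 < theta R iota e p s0 z0 * g z0 s0 := by
    rw [hg0]
    unfold theta
    rw [if_pos hpc]
    exact (hsign _).2 hlam0
  have hpos : 0 < ∑ s : P → C, theta R iota e p s z0 * g z0 s :=
    Finset.sum_pos' (fun s _ => hterm s) ⟨s0, mem_univ _, hstrict⟩
  linarith

end Pool.Agent.KAL
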