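import Pool.Agent.Lib_helper17.KAL.TwoEnds
import Pool.Agent.Lib_helper17.KAL.Gen

set_option autoImplicit false

namespace Pool.Agent.KAL
open Finset Function

section
variable {P C M : Type*} [DecidableEq P] [AddCommGroup M] [Module ℝ M]
  (R : Finset P) (iota : C → P → M) (e : (M × ℝ) ≃ₗ[ℝ] (R → ℝ))

/-- `p` is in the open cone of the rows other than `x`. -/
def InCone (p : M) (s : P → C) (x : R) : Prop :=
  ∃ α : R → ℝ, α x = 0 ∧ (∀ y, y ≠ x → 0 < α y) ∧ ∑ y : R, α y • iota (s y) y = p

theorem inCone_congr {s s' : P → C} (x : R) (h : ∀ y ∈ R, y ≠ (x : P) → s y = s' y) (p : M) :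
    InCone R iota p s x ↔ InCone R iota p s' x := by
  have key : ∀ α : R → ℝ, α x = 0 →
      ∑ y : R, α y • iota (s y) y = ∑ y : R, α y • iota (s' y) y := by
    intro α hα
    apply Finset.sum_congr rfl
    intro y _
    by_cases hy : y = x
    · rw [hy, hα]; simp
    · rw [h y y.2 (fun h' => hy (Subtype.ext h'))]
  constructor
  · rintro ⟨α, h1, h2, h3⟩
    exact ⟨α, h1, h2, by rw [← key α h1]; exact h3⟩
  · rintro ⟨α, h1, h2, h3⟩
    exact ⟨α, h1, h2, by rw [key α h1]; exact h3⟩

open Classical in
/-- signed indicator -/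
noncomputable def theta (p : M) (s : P → C) (x : R) : ℝ :=
  if InCone R iota p s x then Real.sign (lam R iota e s x) else 0

theorem theta_congr {s s' : P → C} (x : R) (h : ∀ y ∈ R, y ≠ (x : P) → s y = s' y) (p : M) :
    theta R iota e p s x = theta R iota e p s' x := by
  unfold theta
  rw [lam_congr R iota e x h]
  by_cases hc : InCone R iota p s x
  · rw [if_pos hc, if_pos ((inCone_congr R iota x h p).1 hc)]
  · rw [if_neg hc, if_neg (fun h' => hc ((inCone_congr R iota x h p).2 h'))]

/-- span of the rows other than `x`, `y` -/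
def W2 (s : P → C) (x y : R) : Submodule ℝ M :=
  Submodule.span ℝ {q | ∃ z : R, z ≠ x ∧ z ≠ y ∧ q = iota (s z) z}

theorem mem_W2_of {s : P → C} {x y : R} (α : R → ℝ) (hx : α x = 0) (hy : α y = 0) :
    ∑ z : R, α z • iota (s z) z ∈ W2 R iota s x y := by
  apply Submodule.sum_mem
  intro z _
  by_cases h1 : z = x
  · rw [h1, hx, zero_smul]; exact Submodule.zero_mem _
  by_cases h2 : z = y
  · rw [h2, hy, zero_smul]; exact Submodule.zero_mem _
  exact Submodule.smul_mem _ _ (Submodule.subset_span ⟨z, h1, h2, rfl⟩)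

theorem of_mem_W2 {s : P → C} {x y : R} {q : M} (hq : q ∈ W2 R iota s x y) :
    ∃ α : R → ℝ, α x = 0 ∧ α y = 0 ∧ ∑ z : R, α z • iota (s z) z = q := by
  unfold W2 at hq
  induction hq using Submodule.span_induction with
  | mem q h =>
    obtain ⟨z, h1, h2, rfl⟩ := h
    refine ⟨Pi.single z 1, ?_, ?_, ?_⟩
    · simp [Ne.symm h1]
    · simp [Ne.symm h2]
    · rw [Finset.sum_eq_single z]
      · simp
      · intro w _ hw; simp [hw]
      · intro h'; exact absurd (mem_univ _) h'
  | zero => exact ⟨0, rfl, rfl, by simp⟩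
  | add q q' _ _ h h' =>
    obtain ⟨α, a1, a2, a3⟩ := h
    obtain ⟨α', b1, b2, b3⟩ := h'
    refine ⟨α + α', by simp [a1, b1], by simp [a2, b2], ?_⟩
    rw [← a3, ← b3, ← Finset.sum_add_distrib]
    apply Finset.sum_congr rfl
    intro z _
    rw [Pi.add_apply, add_smul]
  | smul r q _ h =>
    obtain ⟨α, a1, a2, a3⟩ := h
    refine ⟨r • α, by simp [a1], by simp [a2], ?_⟩
    rw [← a3, Finset.smul_sum]
    apply Finset.sum_congr rfl
    intro z _
    rw [Pi.smul_apply, smul_eq_mul, mul_smul]

theorem W2_ne_top {s : P → C} {x y : R} (hxy : y ≠ x) (hx : lam R iota e s x ≠ 0) :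
    W2 R iota s x y ≠ ⊤ := by
  intro htop
  have h1 : iota (s y) y ∈ W2 R iota s x y := by rw [htop]; trivial
  obtain ⟨α, a1, a2, a3⟩ := of_mem_W2 R iota h1
  have h2 := lam_li R iota e s x hx (α - Pi.single y 1)
    (by simp [a1, Ne.symm hxy])
    (by
      have h3 : ∑ z : R, (α - (Pi.single y (1 : ℝ) : R → ℝ)) z • iota (s z) z =
          ∑ z : R, α z • iota (s z) z - ∑ z : R, (Pi.single y (1 : ℝ) : R → ℝ) z • iota (s z) z := by
        rw [← Finset.sum_sub_distrib]
        apply Finset.sum_congr rfl
        intro z _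
        rw [Pi.sub_apply, sub_smul]
      rw [h3, a3, Finset.sum_eq_single y]
      · simp
      · intro w _ hw; simp [hw]
      · intro h'; exact absurd (mem_univ _) h')
  have h4 := congrFun h2 y
  simp [a2] at h4

theorem theta_sum (p : M) (s : P → C)
    (hgen : ∀ x y : R, y ≠ x → lam R iota e s x ≠ 0 → p ∉ W2 R iota s x y)
    (hno : ∀ a : R → ℝ, (∀ y, 0 ≤ a y) → ∑ y : R, a y • iota (s y) y = 0 → a = 0) :
    ∑ x : R, theta R iota e p s x = 0 := by
  classical
  by_cases hall : ∀ x, lam R iota e s x = 0
  · apply Finset.sum_eq_zero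
    intro x _
    unfold theta
    rw [hall x]
    simp
  push Not at hall
  obtain ⟨x1, hx1⟩ := hall
  obtain ⟨β, -, hβ⟩ := lam_span R iota e s x1 hx1 p
  set l : R → ℝ := fun x => lam R iota e s x with hl
  have hrel : ∑ y : R, l y • iota (s y) y = 0 := lam_rel R iota e s
  have hpos : ∃ x, 0 < l x := by
    by_contra hc
    push Not at hc
    have h1 := hno (fun y => - l y) (fun y => by have := hc y; linarith)
      (by
        have : ∑ y : R, (- l y) • iota (s y) y = - ∑ y : R, l y • iota (s y) y := by
          rw [← Finset.sum_neg_distrib]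
          apply Finset.sum_congr rfl
          intro z _
          rw [neg_smul]
        rw [this, hrel, neg_zero])
    have h2 := congrFun h1 x1
    apply hx1
    simp only [Pi.zero_apply, neg_eq_zero] at h2
    exact h2
  have hneg : ∃ x, l x < 0 := by
    by_contra hc
    push Not at hc
    exact hx1 (congrFun (hno l hc hrel) x1)
  -- the shifted coefficients
  have hshift : ∀ x, l x ≠ 0 → ∑ y : R, (β y - β x / l x * l y) • iota (s y) y = p := by
    intro x hx
    have h1 : ∑ y : R, (β y - β x / l x * l y) • iota (s y) y =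
        ∑ y : R, β y • iota (s y) y - (β x / l x) • ∑ y : R, l y • iota (s y) y := by
      rw [Finset.smul_sum, ← Finset.sum_sub_distrib]
      apply Finset.sum_congr rfl
      intro z _
      rw [sub_smul, smul_smul]
    rw [h1, hrel, hβ, smul_zero, sub_zero]
  have hself : ∀ x, l x ≠ 0 → β x - β x / l x * l x = 0 := by
    intro x hx
    rw [div_mul_cancel₀ _ hx, sub_self]
  have hmul : ∀ x y, l x ≠ 0 → β y * l x - β x * l y = (β y - β x / l x * l y) * l x := by
    intro x y hx
    field_simp
  have hnd : ∀ x, l x ≠ 0 → ∀ y, y ≠ x → β y * l x - β x * l y ≠ 0 := by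
    intro x hx y hy h0
    rw [hmul x y hx] at h0
    rcases mul_eq_zero.1 h0 with h | h
    · apply hgen x y hy hx
      rw [← hshift x hx]
      exact mem_W2_of R iota _ (hself x hx) h
    · exact hx h
  rw [← two_ends l β hpos hneg hnd]
  apply Finset.sum_congr rfl
  intro x _
  by_cases hx : l x = 0
  · have : lam R iota e s x = 0 := hx
    unfold theta
    rw [this, hx]
    simp
  have hiff : InCone R iota p s x ↔ ∀ y, y ≠ x → 0 < (β y * l x - β x * l y) * l x := by
    have hsgn : ∀ y, (0 < (β y * l x - β x * l y) * l x ↔ 0 < β y - β x / l x * l y) := by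
      intro y
      rw [hmul x y hx, mul_assoc]
      have : 0 < l x * l x := mul_self_pos.2 hx
      rw [mul_pos_iff_of_pos_right this]
    constructor
    · rintro ⟨α, a1, a2, a3⟩ y hy
      rw [hsgn y]
      have h1 := lam_li R iota e s x hx (fun z => α z - (β z - β x / l x * l z))
        (by rw [a1, hself x hx, sub_zero])
        (by
          have h2 : ∑ z : R, (α z - (β z - β x / l x * l z)) • iota (s z) z =
              ∑ z : R, α z • iota (s z) z - ∑ z : R, (β z - β x / l x * l z) • iota (s z) z := by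
            rw [← Finset.sum_sub_distrib]
            apply Finset.sum_congr rfl
            intro z _
            rw [sub_smul]
          rw [h2, a3, hshift x hx, sub_self])
      have h3 := congrFun h1 y
      simp only [Pi.zero_apply, sub_eq_zero] at h3
      rw [← h3]
      exact a2 y hy
    · intro h
      exact ⟨fun y => β y - β x / l x * l y, hself x hx, fun y hy => (hsgn y).1 (h y hy),
        hshift x hx⟩
  unfold theta
  by_cases hc : InCone R iota p s x
  · rw [if_pos hc, if_pos (hiff.1 hc)]
  · rw [if_neg hc, if_neg (fun h => hc (hiff.2 h))]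

end

end Pool.Agent.KAL
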