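import Mathlib

set_option autoImplicit false

namespace Pool.Agent.KAL
open Finset Function

/-- Two end points: a line `b + t l` meets the open positive orthant in an interval (or not at all),
and it has exactly two end points, of opposite sign. -/
theorem two_ends {T : Type*} [Fintype T] [DecidableEq T] (l b : T → ℝ)
    (hpos : ∃ x, 0 < l x) (hneg : ∃ x, l x < 0)
    (hnd : ∀ x, l x ≠ 0 → ∀ y, y ≠ x → b y * l x - b x * l y ≠ 0) :
    ∑ x, (if ∀ y, y ≠ x → 0 < (b y * l x - b x * l y) * l x then Real.sign (l x) else 0) = 0 := by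
  classical
  set r : T → ℝ := fun x => b x / l x with hr
  have hA : ∀ x y, l x ≠ 0 → l y ≠ 0 →
      b y * l x - b x * l y = (r y - r x) * (l x * l y) := by
    intro x y hx hy
    simp only [hr]
    field_simp
  have kp : ∀ x y, l x ≠ 0 → 0 < l y →
      (0 < (b y * l x - b x * l y) * l x ↔ r x < r y) := by
    intro x y hx hy
    have h2 : 0 < l x ^ 2 * l y := by positivity
    have h3 : (b y * l x - b x * l y) * l x = (r y - r x) * (l x ^ 2 * l y) := by
      rw [hA x y hx hy.ne']; ring
    rw [h3, mul_pos_iff_of_pos_right h2, sub_pos]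
  have kn : ∀ x y, l x ≠ 0 → l y < 0 →
      (0 < (b y * l x - b x * l y) * l x ↔ r y < r x) := by
    intro x y hx hy
    have h2 : 0 < l x ^ 2 * (- l y) := by
      have : 0 < - l y := by linarith
      positivity
    have h3 : (b y * l x - b x * l y) * l x = (r x - r y) * (l x ^ 2 * (- l y)) := by
      rw [hA x y hx hy.ne]; ring
    rw [h3, mul_pos_iff_of_pos_right h2, sub_pos]
  have kz : ∀ x y, l x ≠ 0 → l y = 0 →
      (0 < (b y * l x - b x * l y) * l x ↔ 0 < b y) := by
    intro x y hx hy
    have h2 : 0 < l x ^ 2 := by positivity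
    have h3 : (b y * l x - b x * l y) * l x = b y * l x ^ 2 := by
      rw [hy]; ring
    rw [h3, mul_pos_iff_of_pos_right h2]
  have hne : ∀ x y, l x ≠ 0 → l y ≠ 0 → x ≠ y → r x ≠ r y := by
    intro x y hx hy hxy h
    apply hnd x hx y (Ne.symm hxy)
    rw [hA x y hx hy, h]; ring
  obtain ⟨xp, hxp, hxpmin⟩ := (univ.filter (fun x => 0 < l x)).exists_min_image r
    (by obtain ⟨x, hx⟩ := hpos; exact ⟨x, by simp [hx]⟩)
  obtain ⟨xn, hxn, hxnmax⟩ := (univ.filter (fun x => l x < 0)).exists_max_image r
    (by obtain ⟨x, hx⟩ := hneg; exact ⟨x, by simp [hx]⟩)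
  simp only [mem_filter, mem_univ, true_and] at hxp hxn hxpmin hxnmax
  have hpn : xp ≠ xn := by
    rintro rfl
    linarith
  -- condition at a positive x forces x = xp
  have c1 : ∀ x, 0 < l x → (∀ y, y ≠ x → 0 < (b y * l x - b x * l y) * l x) → x = xp := by
    intro x hx h
    by_contra hne'
    have h1 := (kp x xp hx.ne' hxp).1 (h xp (Ne.symm hne'))
    have h5 := hxpmin x hx
    linarith
  have c2 : ∀ x, l x < 0 → (∀ y, y ≠ x → 0 < (b y * l x - b x * l y) * l x) → x = xn := by
    intro x hx h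
    by_contra hne'
    have h1 := (kn x xn hx.ne hxn).1 (h xn (Ne.symm hne'))
    have h5 := hxnmax x hx
    linarith
  have key : ∀ x, (∀ y, y ≠ x → 0 < (b y * l x - b x * l y) * l x) → x ≠ xp → x ≠ xn →
      Real.sign (l x) = 0 := by
    intro x h h1 h2
    rcases lt_trichotomy (l x) 0 with h0 | h0 | h0
    · exact absurd (c2 x h0 h) h2
    · rw [h0]; simp
    · exact absurd (c1 x h0 h) h1
  have hE : (∀ y, y ≠ xp → 0 < (b y * l xp - b xp * l y) * l xp) ↔
      (∀ y, y ≠ xn → 0 < (b y * l xn - b xn * l y) * l xn) := by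
    constructor
    · intro h y hy
      have hlt : r xn < r xp := (kn xp xn hxp.ne' hxn).1 (h xn hpn.symm)
      rcases lt_trichotomy (l y) 0 with h0 | h0 | h0
      · rw [kn xn y hxn.ne h0]
        exact lt_of_le_of_ne (hxnmax y h0) (hne y xn h0.ne hxn.ne hy)
      · rw [kz xn y hxn.ne h0]
        have hyp : y ≠ xp := by rintro rfl; linarith
        exact (kz xp y hxp.ne' h0).1 (h y hyp)
      · rw [kp xn y hxn.ne h0]
        exact lt_of_lt_of_le hlt (hxpmin y h0)
    · intro h y hy
      have hlt : r xn < r xp := (kp xn xp hxn.ne hxp).1 (h xp hpn)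
      rcases lt_trichotomy (l y) 0 with h0 | h0 | h0
      · rw [kn xp y hxp.ne' h0]
        exact lt_of_le_of_lt (hxnmax y h0) hlt
      · rw [kz xp y hxp.ne' h0]
        have hyp : y ≠ xn := by rintro rfl; linarith
        exact (kz xn y hxn.ne h0).1 (h y hyp)
      · rw [kp xp y hxp.ne' h0]
        exact lt_of_le_of_ne (hxpmin y h0) (hne xp y hxp.ne' h0.ne' (Ne.symm hy))
  have hsum := Finset.sum_eq_add (s := (univ : Finset T))
    (f := fun x => if ∀ y, y ≠ x → 0 < (b y * l x - b x * l y) * l x then Real.sign (l x) else 0)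
    xp xn hpn
    (by
      intro x _ hx
      by_cases h : ∀ y, y ≠ x → 0 < (b y * l x - b x * l y) * l x
      · simp only [if_pos h]
        exact key x h hx.1 hx.2
      · simp only [if_neg h])
    (by intro h; exact absurd (mem_univ _) h) (by intro h; exact absurd (mem_univ _) h)
  rw [hsum]
  by_cases h : ∀ y, y ≠ xp → 0 < (b y * l xp - b xp * l y) * l xp
  · rw [if_pos h, if_pos (hE.1 h), Real.sign_of_pos hxp, Real.sign_of_neg hxn]
    norm_num
  · rw [if_neg h, if_neg (fun h' => h (hE.2 h'))]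
    norm_num

end Pool.Agent.KAL
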